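import Mathlib
import Pool.Agent.Y16.AF.StmB
import Pool.Agent.Y16.AF.Prob2

/-! The coefficient for simple groups (job AF2-SIMP of helper16). -/

set_option autoImplicit false

open Matrix
open scoped Matrix.Norms.Frobenius
open Pool.Agent.Y16.Gluon Pool.Agent.Y16.AF

namespace Pool.Agent.Y514.AF

noncomputable section

variable {N n : ℕ} {G : Subgroup (UU N)}

/-- the coefficients with respect to the basis -/
def cf (B : LieBasis G n) : Mt N →ₗ[ℝ] (Fin n → ℝ) where
  toFun Y := fun a => (trace ((B.X a)ᴴ * Y)).re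
  map_add' x y := by
    funext a
    simp [Matrix.mul_add]
  map_smul' c x := by
    funext a
    simp

lemma cf_apply (B : LieBasis G n) (Y : Mt N) (a : Fin n) :
    cf B Y a = (trace ((B.X a)ᴴ * Y)).re := rfl

lemma cf_X (B : LieBasis G n) (a : Fin n) : cf B (B.X a) = Pi.single a 1 := by
  funext b
  rw [cf_apply, B.orth, Pi.single_apply]

/-- the matrix of `[X d, ·]` (row vectors) -/
def A (B : LieBasis G n) (d : Fin n) : Matrix (Fin n) (Fin n) ℝ :=
  Matrix.of fun b c => cf B (B.X d * B.X b - B.X b * B.X d) c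

lemma A_apply (B : LieBasis G n) (d b c : Fin n) :
    A B d b c = cf B (B.X d * B.X b - B.X b * B.X d) c := rfl

lemma A_swap (B : LieBasis G n) (d b c : Fin n) : A B d b c = -A B b d c := by
  rw [A_apply, A_apply, ← neg_sub, map_neg]
  rfl

lemma A_anti (B : LieBasis G n) (d b c : Fin n) : A B d b c = -A B d c b := by
  rw [A_apply, A_apply, cf_apply, cf_apply, skX, skX, ← Complex.neg_re]
  congr 1
  have h1 : trace (B.X c * B.X d * B.X b) = trace (B.X b * B.X c * B.X d) :=
    Matrix.trace_mul_cycle _ _ _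
  have h2 : trace (B.X c * B.X b * B.X d) = trace (B.X b * B.X d * B.X c) := by
    rw [Matrix.trace_mul_cycle, Matrix.trace_mul_cycle]
  simp only [neg_mul, Matrix.mul_sub, ← mul_assoc, Matrix.trace_neg, Matrix.trace_sub]
  rw [h1, h2]
  ring

lemma bm (B : LieBasis G n) (d b : Fin n) :
    B.X d * B.X b - B.X b * B.X d ∈ Submodule.span ℝ (Set.range B.X) := (fr B).brk_mem d b

lemma cf_brk (B : LieBasis G n) (d : Fin n) {Y : Mt N}
    (hY : Y ∈ Submodule.span ℝ (Set.range B.X)) (e : Fin n) :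
    cf B (B.X d * Y - Y * B.X d) e = ∑ b, cf B Y b * A B d b e := by
  have h : B.X d * Y - Y * B.X d = ∑ b, cf B Y b • (B.X d * B.X b - B.X b * B.X d) := by
    conv_lhs => rw [expand B hY]
    rw [Finset.mul_sum, Finset.sum_mul, ← Finset.sum_sub_distrib]
    refine Finset.sum_congr rfl fun b _ => ?_
    rw [mul_smul_comm, smul_mul_assoc, smul_sub]
    rfl
  rw [h, map_sum, Finset.sum_apply]
  refine Finset.sum_congr rfl fun b _ => ?_
  rw [map_smul]
  rfl

lemma jacobi (B : LieBasis G n) (d a : Fin n) :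
    A B a * A B d - A B d * A B a = ∑ c, A B d a c • A B c := by
  ext b e
  have h1 : cf B (B.X d * (B.X a * B.X b - B.X b * B.X a) -
      (B.X a * B.X b - B.X b * B.X a) * B.X d) e = (A B a * A B d) b e := by
    rw [cf_brk B d (bm B a b), Matrix.mul_apply]
    rfl
  have h2 : cf B (B.X a * (B.X d * B.X b - B.X b * B.X d) -
      (B.X d * B.X b - B.X b * B.X d) * B.X a) e = (A B d * A B a) b e := by
    rw [cf_brk B a (bm B d b), Matrix.mul_apply]
    rfl
  have h3 : cf B ((B.X d * B.X a - B.X a * B.X d) * B.X b -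
      B.X b * (B.X d * B.X a - B.X a * B.X d)) e = (∑ c, A B d a c • A B c) b e := by
    have h4 := cf_brk B b (bm B d a) e
    have h5 : cf B ((B.X d * B.X a - B.X a * B.X d) * B.X b -
      B.X b * (B.X d * B.X a - B.X a * B.X d)) e = -cf B (B.X b * (B.X d * B.X a - B.X a * B.X d) -
      (B.X d * B.X a - B.X a * B.X d) * B.X b) e := by
      rw [← neg_sub, map_neg]
      rfl
    rw [h5, h4, Matrix.sum_apply, ← Finset.sum_neg_distrib]
    refine Finset.sum_congr rfl fun c _ => ?_
    rw [Matrix.smul_apply, smul_eq_mul, A_swap B c b e, mul_neg]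
    rfl
  rw [Matrix.sub_apply, ← h1, ← h2, ← h3, ← Pi.sub_apply, ← map_sub]
  noncomm_ring

/-- the Casimir matrix -/
def C (B : LieBasis G n) : Matrix (Fin n) (Fin n) ℝ :=
  Matrix.of fun a e => ∑ b, ∑ c, A B a b c * A B e b c

lemma C_trace (B : LieBasis G n) (a e : Fin n) : C B a e = -trace (A B a * A B e) := by
  have h0 : C B a e = ∑ b, ∑ c, A B a b c * A B e b c := rfl
  rw [h0, Matrix.trace, ← Finset.sum_neg_distrib]
  refine Finset.sum_congr rfl fun b _ => ?_
  rw [Matrix.diag_apply, Matrix.mul_apply, ← Finset.sum_neg_distrib]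
  refine Finset.sum_congr rfl fun c _ => ?_
  rw [A_anti B e c b]
  ring

lemma C_symm (B : LieBasis G n) (a e : Fin n) : C B a e = C B e a := by
  rw [C_trace, C_trace, Matrix.trace_mul_comm]

lemma C_comm (B : LieBasis G n) (d : Fin n) : A B d * C B = C B * A B d := by
  ext a e
  have h1 : (A B d * C B) a e = -trace ((A B a * A B d - A B d * A B a) * A B e) := by
    rw [jacobi, Matrix.mul_apply, Finset.sum_mul, Matrix.trace_sum, ← Finset.sum_neg_distrib]
    refine Finset.sum_congr rfl fun c _ => ?_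
    rw [C_trace, smul_mul_assoc, Matrix.trace_smul, smul_eq_mul]
    ring
  have h2 : (C B * A B d) a e = trace (A B a * (A B e * A B d - A B d * A B e)) := by
    rw [jacobi, Matrix.mul_apply, Finset.mul_sum, Matrix.trace_sum]
    refine Finset.sum_congr rfl fun c _ => ?_
    rw [C_trace, mul_smul_comm, Matrix.trace_smul, smul_eq_mul, A_anti B d c e]
    ring
  rw [h1, h2, sub_mul, mul_sub, Matrix.trace_sub, Matrix.trace_sub, ← mul_assoc, ← mul_assoc]
  have h3 : trace (A B d * A B a * A B e) = trace (A B a * A B e * A B d) := by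
    rw [Matrix.trace_mul_cycle, Matrix.trace_mul_cycle]
  rw [h3]
  ring

lemma q_eq (B : LieBasis G n) {T : Mt N} (hT : T ∈ Submodule.span ℝ (Set.range B.X)) :
    (∑ a, ‖T * B.X a - B.X a * T‖ ^ 2) = ∑ a, ∑ e, cf B T a * cf B T e * C B a e := by
  have h1 : ∀ b, ‖T * B.X b - B.X b * T‖ ^ 2 =
      ∑ c, ∑ a, ∑ e, cf B T a * A B a b c * (cf B T e * A B e b c) := by
    intro b
    rw [frob_span B (brT B hT b)]
    refine Finset.sum_congr rfl fun c _ => ?_
    have h2 : (trace ((B.X c)ᴴ * (T * B.X b - B.X b * T))).re = ∑ a, cf B T a * A B a b c := by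
      have h3 : (trace ((B.X c)ᴴ * (T * B.X b - B.X b * T))).re =
          -cf B (B.X b * T - T * B.X b) c := by
        rw [← cf_apply, ← neg_sub, map_neg]
        rfl
      rw [h3, cf_brk B b hT, ← Finset.sum_neg_distrib]
      refine Finset.sum_congr rfl fun a _ => ?_
      rw [A_swap B b a c]
      ring
    rw [h2, sq, Finset.sum_mul_sum]
  simp only [h1, C, Matrix.of_apply, Finset.mul_sum]
  -- reorder
  calc ∑ b, ∑ c, ∑ a, ∑ e, cf B T a * A B a b c * (cf B T e * A B e b c)
      = ∑ b, ∑ a, ∑ c, ∑ e, cf B T a * A B a b c * (cf B T e * A B e b c) := by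
        refine Finset.sum_congr rfl fun b _ => ?_
        rw [Finset.sum_comm]
    _ = ∑ b, ∑ a, ∑ e, ∑ c, cf B T a * A B a b c * (cf B T e * A B e b c) := by
        refine Finset.sum_congr rfl fun b _ => Finset.sum_congr rfl fun a _ => ?_
        rw [Finset.sum_comm]
    _ = ∑ a, ∑ b, ∑ e, ∑ c, cf B T a * A B a b c * (cf B T e * A B e b c) := Finset.sum_comm
    _ = ∑ a, ∑ e, ∑ b, ∑ c, cf B T a * A B a b c * (cf B T e * A B e b c) := by
        refine Finset.sum_congr rfl fun a _ => ?_
        rw [Finset.sum_comm]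
    _ = ∑ a, ∑ e, ∑ b, ∑ c, cf B T a * cf B T e * (A B a b c * A B e b c) := by
        refine Finset.sum_congr rfl fun a _ => Finset.sum_congr rfl fun e _ =>
          Finset.sum_congr rfl fun b _ => Finset.sum_congr rfl fun c _ => ?_
        ring

lemma cf_comb (B : LieBasis G n) (v : Fin n → ℝ) : cf B (∑ a, v a • B.X a) = v := by
  rw [map_sum]
  funext b
  simp only [map_smul, cf_X, Finset.sum_apply, Pi.smul_apply, Pi.single_apply, smul_eq_mul]
  simp

theorem af_simp : S_SIMP := by
  intro N n G B hn hW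
  have hCH : (C B).IsHermitian := by
    ext a e
    rw [Matrix.conjTranspose_apply, star_trivial]
    exact C_symm B e a
  set i : Fin n := ⟨0, hn⟩
  set l : ℝ := hCH.eigenvalues i with hl
  set v : Fin n → ℝ := ⇑(hCH.eigenvectorBasis i) with hv
  have hv1 : C B *ᵥ v = l • v := hCH.mulVec_eigenvectorBasis i
  have hv0 : v ≠ 0 := by
    intro h
    apply hCH.eigenvectorBasis.orthonormal.ne_zero i
    ext a
    exact congrFun h a
  let W : Submodule ℝ (Mt N) := Submodule.span ℝ (Set.range B.X) ⊓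
    LinearMap.ker ((C B).mulVecLin ∘ₗ cf B - l • cf B)
  have hWm : ∀ Y, Y ∈ W ↔ Y ∈ Submodule.span ℝ (Set.range B.X) ∧
      C B *ᵥ cf B Y = l • cf B Y := by
    intro Y
    rw [Submodule.mem_inf, LinearMap.mem_ker, LinearMap.sub_apply, sub_eq_zero]
    rfl
  have hst : ∀ a, ∀ Y ∈ W, B.X a * Y - Y * B.X a ∈ W := by
    intro a Y hY
    rw [hWm] at hY ⊢
    obtain ⟨hY1, hY2⟩ := hY
    refine ⟨?_, ?_⟩
    · rw [← neg_sub]
      exact Submodule.neg_mem _ (brT B hY1 a)
    · have h1 : cf B (B.X a * Y - Y * B.X a) = -(A B a *ᵥ cf B Y) := by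
        funext e
        rw [cf_brk B a hY1, Pi.neg_apply, Matrix.mulVec, dotProduct, ← Finset.sum_neg_distrib]
        refine Finset.sum_congr rfl fun b _ => ?_
        rw [A_anti B a b e]
        ring
      rw [h1, Matrix.mulVec_neg, Matrix.mulVec_mulVec, ← C_comm, ← Matrix.mulVec_mulVec, hY2,
        Matrix.mulVec_smul, smul_neg]
  have hWtop : W = Submodule.span ℝ (Set.range B.X) := by
    rcases hW W inf_le_left hst with h | h
    · exfalso
      have hmem : (∑ a, v a • B.X a) ∈ W := by
        rw [hWm, cf_comb]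
        exact ⟨Submodule.sum_mem _ fun a _ => Submodule.smul_mem _ _
          (Submodule.subset_span ⟨a, rfl⟩), hv1⟩
      rw [h, Submodule.mem_bot] at hmem
      apply hv0
      rw [← cf_comb B v, hmem, map_zero]
    · exact h
  have hCl : ∀ a e, C B a e = if a = e then l else 0 := by
    intro a e
    have h1 : B.X e ∈ W := by
      rw [hWtop]
      exact Submodule.subset_span ⟨e, rfl⟩
    have h2 := ((hWm _).1 h1).2
    rw [cf_X] at h2
    have h3 := congrFun h2 a
    rw [Matrix.mulVec_single_one] at h3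
    rw [Pi.smul_apply, Pi.single_apply, smul_eq_mul] at h3
    have h4 : C B a e = l * if a = e then 1 else 0 := h3
    rw [h4]
    split_ifs <;> simp
  have hq : ∀ T ∈ Submodule.span ℝ (Set.range B.X),
      (∑ a, ‖T * B.X a - B.X a * T‖ ^ 2) = l * ‖T‖ ^ 2 := by
    intro T hT
    rw [q_eq B hT, frob_span B hT, Finset.mul_sum]
    refine Finset.sum_congr rfl fun a _ => ?_
    simp only [hCl, mul_ite, mul_zero]
    rw [Finset.sum_ite_eq]
    simp only [Finset.mem_univ, if_true]
    rw [cf_apply]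
    ring
  intro T hT
  rw [hq T hT]
  congr 1
  have hX : ∀ a, (∑ b, ‖B.X a * B.X b - B.X b * B.X a‖ ^ 2) = l := by
    intro a
    rw [hq _ (Submodule.subset_span ⟨a, rfl⟩)]
    have : ‖B.X a‖ ^ 2 = 1 := by
      rw [frob_sq, B.orth, if_pos rfl]
    rw [this, mul_one]
  simp only [hX]
  have hn' : (n : ℝ) ≠ 0 := by exact_mod_cast hn.ne'
  simp
  field_simp

end

end Pool.Agent.Y514.AF
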